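import Mathlib

/-!
The monomials of a symmetric `4 × 4` minor come from at most two permutations each.
-/

set_option autoImplicit false

namespace Q58.Trop

/-- index of an unordered pair of numbers below `8` -/
def key (x y : ℕ) : ℕ := min x y * 8 + max x y

/-- code of the monomial of the permutation `a` for the columns `c` -/
def cd (c a : ℕ × ℕ × ℕ × ℕ) : ℕ :=
  5 ^ key a.1 c.1 + 5 ^ key a.2.1 c.2.1 + 5 ^ key a.2.2.1 c.2.2.1 + 5 ^ key a.2.2.2 c.2.2.2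

/-- pairwise distinct entries -/
def dist4 (a : ℕ × ℕ × ℕ × ℕ) : Bool :=
  a.1 != a.2.1 && a.1 != a.2.2.1 && a.1 != a.2.2.2 && a.2.1 != a.2.2.1 && a.2.1 != a.2.2.2 &&
    a.2.2.1 != a.2.2.2

/-- all the permutations of `0, 1, 2, 3` -/
def perms : List (ℕ × ℕ × ℕ × ℕ) :=
  [(0, 1, 2, 3), (0, 1, 3, 2), (0, 2, 1, 3), (0, 2, 3, 1), (0, 3, 1, 2), (0, 3, 2, 1),
   (1, 0, 2, 3), (1, 0, 3, 2), (1, 2, 0, 3), (1, 2, 3, 0), (1, 3, 0, 2), (1, 3, 2, 0),
   (2, 0, 1, 3), (2, 0, 3, 1), (2, 1, 0, 3), (2, 1, 3, 0), (2, 3, 0, 1), (2, 3, 1, 0),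
   (3, 0, 1, 2), (3, 0, 2, 1), (3, 1, 0, 2), (3, 1, 2, 0), (3, 2, 0, 1), (3, 2, 1, 0)]

/-- the check for one column pattern -/
def chk (c : ℕ × ℕ × ℕ × ℕ) : Bool :=
  perms.all fun a => decide (((perms.map (cd c)).filter fun b => b == cd c a).length ≤ 2)

/-- the check for all column patterns -/
def chkAll : Bool :=
  [0, 1, 2, 3, 4].all fun c0 => [0, 1, 2, 3, 5].all fun c1 => [0, 1, 2, 3, 6].all fun c2 =>
    [0, 1, 2, 3, 7].all fun c3 => !dist4 (c0, c1, c2, c3) || chk (c0, c1, c2, c3)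

set_option maxRecDepth 100000 in
theorem chkAll_eq : chkAll = true := by decide +kernel

end Q58.Trop
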