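import Pool.Agent.Q58.Trop.Defs
import Pool.Agent.Q58.Trop.Count

/-!
A coefficient of a symmetric `4 × 4` minor that is divisible by `3` is `0`.
-/

set_option autoImplicit false

namespace Q58.Trop

open MvPolynomial

/-- the exponent of the monomial of the permutation `σ` -/
noncomputable def mon {n : ℕ} (r c : Fin 4 → Fin n) (σ : Equiv.Perm (Fin 4)) :
    Sym2 (Fin n) →₀ ℕ :=
  ∑ i, Finsupp.single s(r (σ i), c i) 1

theorem minor_eq (R : Type) [CommRing R] {n : ℕ} (r c : Fin 4 → Fin n) :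
    minor R n r c =
      ∑ σ : Equiv.Perm (Fin 4), monomial (mon r c σ) ((Equiv.Perm.sign σ : ℤ) : R) := by
  unfold minor
  rw [Matrix.det_apply]
  refine Finset.sum_congr rfl fun σ _ => ?_
  have h : ∏ i, ((symMat R n).submatrix r c) (σ i) i = monomial (mon r c σ) 1 := by
    simp only [Matrix.submatrix_apply, symMat, X, mon]
    rw [← monomial_sum_one]
  rw [h, Units.smul_def, ← Int.cast_smul_eq_zsmul R, smul_monomial]
  simp

theorem coeff_minor {n : ℕ} (r c : Fin 4 → Fin n) (u : Sym2 (Fin n) →₀ ℕ) :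
    coeff u (minor ℤ n r c) =
      ∑ σ ∈ Finset.univ.filter (fun σ : Equiv.Perm (Fin 4) => mon r c σ = u),
        (Equiv.Perm.sign σ : ℤ) := by
  classical
  rw [minor_eq, coeff_sum, Finset.sum_filter]
  refine Finset.sum_congr rfl fun σ _ => ?_
  rw [coeff_monomial]
  simp

/-- the label of an index: the position among the rows, or `4 +` the position among the columns -/
noncomputable def lab {n : ℕ} (r c : Fin 4 → Fin n) (x : Fin n) : ℕ := by
  classical exact
  if h : ∃ i, r i = x then (h.choose : ℕ) else if h : ∃ j, c j = x then 4 + (h.choose : ℕ) else 0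

theorem lab_row {n : ℕ} {r c : Fin 4 → Fin n} (hr : Function.Injective r) (i : Fin 4) :
    lab r c (r i) = i := by
  have h : ∃ j, r j = r i := ⟨i, rfl⟩
  have h2 : h.choose = i := hr h.choose_spec
  simp only [lab, dif_pos h, h2]

theorem lab_col {n : ℕ} {r c : Fin 4 → Fin n} (hc : Function.Injective c) (j : Fin 4) :
    (lab r c (c j) < 4 ∧ ∃ i, r i = c j ∧ lab r c (c j) = i) ∨
      ((¬ ∃ i, r i = c j) ∧ lab r c (c j) = 4 + j) := by
  by_cases h : ∃ i, r i = c j
  · left
    have h1 : lab r c (c j) = (h.choose : ℕ) := by simp only [lab, dif_pos h]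
    exact ⟨h1 ▸ h.choose.2, h.choose, h.choose_spec, h1⟩
  · right
    have h' : ∃ i, c i = c j := ⟨j, rfl⟩
    have h2 : h'.choose = j := hc h'.choose_spec
    refine ⟨h, ?_⟩
    simp only [lab, dif_neg h, dif_pos h', h2]

/-- the weight of an unordered pair used in the codes -/
noncomputable def pairCode {n : ℕ} (r c : Fin 4 → Fin n) : Sym2 (Fin n) → ℕ :=
  Sym2.lift ⟨fun x y => 5 ^ key (lab r c x) (lab r c y), fun x y => by
    simp only [key, min_comm, max_comm]⟩

theorem code_eq {n : ℕ} {r c : Fin 4 → Fin n} {σ τ : Equiv.Perm (Fin 4)}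
    (h : mon r c σ = mon r c τ) :
    ∑ i, pairCode r c s(r (σ i), c i) = ∑ i, pairCode r c s(r (τ i), c i) := by
  have key : ∀ ρ : Equiv.Perm (Fin 4), ∑ i, pairCode r c s(r (ρ i), c i) =
      (Finsupp.linearCombination ℕ (pairCode r c)) (mon r c ρ) := by
    intro ρ
    simp [mon, map_sum, Finsupp.linearCombination_single]
  rw [key, key, h]

/-- the tuple of a permutation -/
def tup (σ : Equiv.Perm (Fin 4)) : ℕ × ℕ × ℕ × ℕ := (σ 0, σ 1, σ 2, σ 3)

theorem tup_injective : Function.Injective tup := by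
  intro σ τ h
  simp only [tup, Prod.mk.injEq] at h
  ext i
  fin_cases i <;> simp [h]

theorem tup_mem (σ : Equiv.Perm (Fin 4)) : tup σ ∈ perms := by
  have : ∀ σ : Equiv.Perm (Fin 4), tup σ ∈ perms := by decide +kernel
  exact this σ

theorem three_le_length {α : Type} {l : List α} {x y z : α} (hx : x ∈ l) (hy : y ∈ l) (hz : z ∈ l)
    (hxy : x ≠ y) (hxz : x ≠ z) (hyz : y ≠ z) : 3 ≤ l.length := by
  have h : [x, y, z].Nodup := by simp [hxy, hxz, hyz]
  have h2 : [x, y, z] ⊆ l := by
    intro a ha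
    simp only [List.mem_cons, List.not_mem_nil, or_false] at ha
    rcases ha with rfl | rfl | rfl <;> assumption
  exact (h.subperm h2).length_le

theorem not_three {n : ℕ} {r c : Fin 4 → Fin n} (hr : Function.Injective r)
    (hc : Function.Injective c) {σ τ ρ : Equiv.Perm (Fin 4)} (h1 : σ ≠ τ) (h2 : σ ≠ ρ)
    (h3 : τ ≠ ρ) (e1 : mon r c τ = mon r c σ) (e2 : mon r c ρ = mon r c σ) : False := by
  set c' : ℕ × ℕ × ℕ × ℕ := (lab r c (c 0), lab r c (c 1), lab r c (c 2), lab r c (c 3)) with hc'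
  have hcode : ∀ ρ : Equiv.Perm (Fin 4),
      ∑ i, pairCode r c s(r (ρ i), c i) = cd c' (tup ρ) := by
    intro ρ
    rw [Fin.sum_univ_four]
    simp only [pairCode, Sym2.lift_mk, lab_row hr, cd, tup, hc']
  have f1 : cd c' (tup τ) = cd c' (tup σ) := by rw [← hcode, ← hcode]; exact code_eq e1
  have f2 : cd c' (tup ρ) = cd c' (tup σ) := by rw [← hcode, ← hcode]; exact code_eq e2
  -- the pattern is among the checked ones
  have hinj : ∀ i j : Fin 4, i ≠ j → lab r c (c i) ≠ lab r c (c j) := by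
    intro i j hij h
    rcases lab_col (r := r) (c := c) hc i with ⟨hi, k, hk, hk'⟩ | ⟨hi, hi'⟩ <;>
      rcases lab_col (r := r) (c := c) hc j with ⟨hj, l, hl, hl'⟩ | ⟨hj, hj'⟩
    · apply hij
      apply hc
      rw [← hk, ← hl]
      congr 1
      exact Fin.ext (by rw [← hk', ← hl', h])
    · omega
    · omega
    · exact hij (Fin.ext (by omega))
  have hmem : ∀ j : Fin 4, lab r c (c j) ∈ [0, 1, 2, 3, 4 + (j : ℕ)] := by
    intro j
    rcases lab_col (r := r) (c := c) hc j with ⟨hi, -⟩ | ⟨-, hi'⟩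
    · simp only [List.mem_cons, List.not_mem_nil, or_false]; omega
    · rw [hi']; simp
  have hall := chkAll_eq
  simp only [chkAll, List.all_eq_true] at hall
  have h0 := hall _ (hmem 0) _ (hmem 1) _ (hmem 2) _ (hmem 3)
  have hd : dist4 c' = true := by
    simp only [dist4, hc', Bool.and_eq_true, bne_iff_ne]
    refine ⟨⟨⟨⟨⟨?_, ?_⟩, ?_⟩, ?_⟩, ?_⟩, ?_⟩ <;> apply hinj <;> decide
  rw [← hc', hd] at h0
  simp only [Bool.not_true, Bool.false_or, chk, List.all_eq_true, decide_eq_true_eq] at h0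
  have h4 := h0 _ (tup_mem σ)
  rw [List.filter_map, List.length_map] at h4
  have h5 := three_le_length (l := perms.filter ((fun b => b == cd c' (tup σ)) ∘ cd c'))
    (x := tup σ) (y := tup τ) (z := tup ρ) ?_ ?_ ?_ (fun h => h1 (tup_injective h))
    (fun h => h2 (tup_injective h)) (fun h => h3 (tup_injective h))
  · omega
  · exact List.mem_filter.2 ⟨tup_mem σ, by simp⟩
  · exact List.mem_filter.2 ⟨tup_mem τ, by simp [f1]⟩
  · exact List.mem_filter.2 ⟨tup_mem ρ, by simp [f2]⟩

theorem coeff_eq_zero_of_dvd {n : ℕ} {r c : Fin 4 → Fin n} (hr : Function.Injective r)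
    (hc : Function.Injective c) (u : Sym2 (Fin n) →₀ ℕ)
    (h : (3 : ℤ) ∣ coeff u (minor ℤ n r c)) : coeff u (minor ℤ n r c) = 0 := by
  classical
  have hcard : (Finset.univ.filter (fun σ : Equiv.Perm (Fin 4) => mon r c σ = u)).card ≤ 2 := by
    by_contra hlt
    push Not at hlt
    obtain ⟨a, b, d, ha, hb, hd, hab, had, hbd⟩ := Finset.two_lt_card_iff.1 hlt
    simp only [Finset.mem_filter, Finset.mem_univ, true_and] at ha hb hd
    exact not_three hr hc hab had hbd (hb.trans ha.symm) (hd.trans ha.symm)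
  have habs : |coeff u (minor ℤ n r c)| ≤ 2 := by
    rw [coeff_minor]
    refine (Finset.abs_sum_le_sum_abs _ _).trans ?_
    have : ∀ σ : Equiv.Perm (Fin 4), |((Equiv.Perm.sign σ : ℤˣ) : ℤ)| = 1 := fun σ => by
      rcases Int.units_eq_one_or (Equiv.Perm.sign σ) with h | h <;> rw [h] <;> simp
    simp only [this, Finset.sum_const, mul_one, nsmul_eq_mul]
    exact_mod_cast hcard
  rw [abs_le] at habs
  omega

end Q58.Trop
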