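import Mathlib

/-!
Symmetric matrices of indeterminates, their `4 × 4` minors, tropical hypersurfaces and tropical
bases.
-/

set_option autoImplicit false

namespace Q58.Trop

open MvPolynomial

/-- The symmetric `n × n` matrix of indeterminates: the `(i, j)` entry is the variable with index
the unordered pair `{i, j}`. -/
noncomputable def symMat (R : Type) [CommRing R] (n : ℕ) :
    Matrix (Fin n) (Fin n) (MvPolynomial (Sym2 (Fin n)) R) :=
  fun i j => X s(i, j)

/-- The minor with rows `r 0, r 1, r 2, r 3` and columns `c 0, c 1, c 2, c 3`. -/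
noncomputable def minor (R : Type) [CommRing R] (n : ℕ) (r c : Fin 4 → Fin n) :
    MvPolynomial (Sym2 (Fin n)) R :=
  ((symMat R n).submatrix r c).det

/-- The set of all `4 × 4` minors of the symmetric `n × n` matrix of indeterminates over `ℂ`. -/
def minors (n : ℕ) : Set (MvPolynomial (Sym2 (Fin n)) ℂ) :=
  {f | ∃ r c : Fin 4 ↪o Fin n, f = minor ℂ n r c}

/-- The weight `w · u` of an exponent vector. -/
noncomputable def wt {σ : Type} (w : σ → ℝ) (u : σ →₀ ℕ) : ℝ := u.sum fun i k => (k : ℝ) * w i

/-- The tropical hypersurface of `f`: the set of all `w` for which the minimum of `w · u` over the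
exponents `u` of `f` is attained at least twice (everything if `f = 0`). -/
def trop {σ : Type} (f : MvPolynomial σ ℂ) : Set (σ → ℝ) :=
  {w | f = 0 ∨ ∃ u ∈ f.support, ∃ v ∈ f.support, u ≠ v ∧ wt w u = wt w v ∧
    ∀ z ∈ f.support, wt w u ≤ wt w z}

/-- The tropical variety of an ideal: the intersection of the tropical hypersurfaces of all its
elements. -/
def tropVar {σ : Type} (I : Ideal (MvPolynomial σ ℂ)) : Set (σ → ℝ) := ⋂ f ∈ I, trop f

/-- The (finite) set `F` is a tropical basis of the ideal it generates. -/
def IsTropicalBasis {σ : Type} (F : Set (MvPolynomial σ ℂ)) : Prop :=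
  (⋂ f ∈ F, trop f) = tropVar (Ideal.span F)

end Q58.Trop
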