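import Pool.Agent.Q58.Trop.Coeff

/-!
The `3`-adic valuations of the Gram matrix of vectors with three integral coordinates lie in all
tropical hypersurfaces of the symmetric `4 × 4` minors.
-/

set_option autoImplicit false

namespace Q58.Trop

open MvPolynomial

/-- Gram matrix of a family of integral vectors, on unordered pairs -/
def gram {n : ℕ} (V : Fin n → Fin 3 → ℤ) : Sym2 (Fin n) → ℤ :=
  Sym2.lift ⟨fun i j => ∑ k, V i k * V j k, fun i j => by simp only [mul_comm]⟩

/-- the weight: `1` if the entry of the Gram matrix is divisible by `3`, and `0` otherwise -/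
def gw {n : ℕ} (V : Fin n → Fin 3 → ℤ) (e : Sym2 (Fin n)) : ℕ :=
  if (3 : ℤ) ∣ gram V e then 1 else 0

theorem eval_minor {n : ℕ} (V : Fin n → Fin 3 → ℤ) (r c : Fin 4 → Fin n) :
    eval (gram V) (minor ℤ n r c) = 0 := by
  have h1 : eval (gram V) (minor ℤ n r c) =
      (Matrix.of fun i j : Fin 4 => ∑ k, V (r i) k * V (c j) k).det := by
    unfold minor
    rw [RingHom.map_det]
    congr 1
    ext i j
    simp [symMat, gram]
  rw [h1]
  -- pad with a zero column
  let A : Matrix (Fin 4) (Fin 4) ℤ := Matrix.of fun i k => ![V (r i) 0, V (r i) 1, V (r i) 2, 0] k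
  let B : Matrix (Fin 4) (Fin 4) ℤ := Matrix.of fun k j => ![V (c j) 0, V (c j) 1, V (c j) 2, 0] k
  have h2 : (Matrix.of fun i j : Fin 4 => ∑ k, V (r i) k * V (c j) k) = A * B := by
    ext i j
    rw [Matrix.mul_apply, Fin.sum_univ_four]
    simp [A, B, Fin.sum_univ_three]
  have h3 : A.det = 0 := Matrix.det_eq_zero_of_column_eq_zero 3 fun i => by
    simp [A]
  rw [h2, Matrix.det_mul, h3, zero_mul]

theorem part_one {n : ℕ} (V : Fin n → Fin 3 → ℤ)
    (hV : ∀ e, ¬ (9 : ℤ) ∣ gram V e) (r c : Fin 4 → Fin n) (hr : Function.Injective r)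
    (hc : Function.Injective c) :
    (fun e => (gw V e : ℝ)) ∈ trop (minor ℂ n r c) := by
  classical
  have hmap : minor ℂ n r c = map (Int.castRingHom ℂ) (minor ℤ n r c) := by
    rw [minor_eq, minor_eq, map_sum]
    refine Finset.sum_congr rfl fun σ _ => ?_
    rw [map_monomial]
    simp
  have hsupp : (minor ℂ n r c).support = (minor ℤ n r c).support := by
    rw [hmap]
    exact support_map_of_injective _ Int.cast_injective
  by_cases h0 : minor ℂ n r c = 0
  · exact Or.inl h0
  right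
  have hne : (minor ℤ n r c).support.Nonempty := by
    rw [← hsupp]
    exact support_nonempty.2 h0
  -- natural weights
  let W : (Sym2 (Fin n) →₀ ℕ) → ℕ := fun u => u.sum fun e k => k * gw V e
  have hW : ∀ u, wt (fun e => (gw V e : ℝ)) u = (W u : ℝ) := by
    intro u
    simp only [wt, W, Finsupp.sum]
    push_cast
    rfl
  obtain ⟨u, hu, hmin⟩ := Finset.exists_min_image (minor ℤ n r c).support W hne
  rw [hsupp]
  refine ⟨u, hu, ?_⟩
  by_contra hcon
  have hlt : ∀ v ∈ (minor ℤ n r c).support, v ≠ u → W u < W v := by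
    intro v hv hvu
    rcases lt_or_eq_of_le (hmin v hv) with h | h
    · exact h
    · exfalso
      apply hcon
      refine ⟨v, hv, fun h => hvu h.symm, ?_, ?_⟩
      · rw [hW, hW, h]
      · intro z hz
        rw [hW, hW]
        exact_mod_cast hmin z hz
  -- evaluation
  have hev := eval_minor V r c
  rw [eval_eq, ← Finset.add_sum_erase _ _ hu] at hev
  -- the products
  have hdvd : ∀ e, ∃ m : ℤ, gram V e = 3 ^ gw V e * m ∧ ¬ (3 : ℤ) ∣ m := by
    intro e
    by_cases h3 : (3 : ℤ) ∣ gram V e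
    · obtain ⟨m, hm⟩ := h3
      refine ⟨m, ?_, ?_⟩
      · have : gw V e = 1 := if_pos (Dvd.intro m hm.symm)
        rw [this, hm, pow_one]
      · rintro ⟨k, rfl⟩
        apply hV e
        exact ⟨k, by rw [hm]; ring⟩
    · exact ⟨gram V e, by simp [gw, h3], h3⟩
  choose m hm hm3 using hdvd
  have hprod : ∀ v : Sym2 (Fin n) →₀ ℕ,
      ∏ i ∈ v.support, gram V i ^ v i = 3 ^ W v * ∏ i ∈ v.support, m i ^ v i := by
    intro v
    simp only [W, Finsupp.sum, ← Finset.prod_pow_eq_pow_sum, ← Finset.prod_mul_distrib]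
    refine Finset.prod_congr rfl fun e _ => ?_
    rw [hm e, mul_pow, ← pow_mul, mul_comm (v e)]
  have hrest : (3 : ℤ) ^ (W u + 1) ∣ ∑ v ∈ (minor ℤ n r c).support.erase u,
      coeff v (minor ℤ n r c) * ∏ i ∈ v.support, gram V i ^ v i := by
    refine Finset.dvd_sum fun v hv => ?_
    rw [Finset.mem_erase] at hv
    rw [hprod]
    exact Dvd.dvd.mul_left (Dvd.dvd.mul_right (pow_dvd_pow _ (hlt v hv.2 hv.1)) _) _
  have hfirst : (3 : ℤ) ^ (W u + 1) ∣ coeff u (minor ℤ n r c) *
      (3 ^ W u * ∏ i ∈ u.support, m i ^ u i) := by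
    rw [← hprod]
    have : coeff u (minor ℤ n r c) * ∏ i ∈ u.support, gram V i ^ u i =
        -∑ v ∈ (minor ℤ n r c).support.erase u,
          coeff v (minor ℤ n r c) * ∏ i ∈ v.support, gram V i ^ v i := by linarith
    rw [this]
    exact (dvd_neg).2 hrest
  have h3 : (3 : ℤ) ∣ coeff u (minor ℤ n r c) * ∏ i ∈ u.support, m i ^ u i := by
    obtain ⟨q, hq⟩ := hfirst
    refine ⟨q, ?_⟩
    have h3pos : (3 : ℤ) ^ W u ≠ 0 := by positivity
    apply mul_left_cancel₀ h3pos
    calc (3 : ℤ) ^ W u * (coeff u (minor ℤ n r c) * ∏ i ∈ u.support, m i ^ u i)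
        = coeff u (minor ℤ n r c) * (3 ^ W u * ∏ i ∈ u.support, m i ^ u i) := by ring
      _ = 3 ^ (W u + 1) * q := hq
      _ = 3 ^ W u * (3 * q) := by ring
  have hp : Prime (3 : ℤ) := Int.prime_three
  rcases hp.dvd_or_dvd h3 with h | h
  · exact (mem_support_iff.1 hu) (coeff_eq_zero_of_dvd hr hc u h)
  · obtain ⟨e, -, he⟩ := hp.exists_mem_finset_dvd h
    exact hm3 e (hp.dvd_of_dvd_pow he)

end Q58.Trop
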