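import Pool.Agent.Q58.Trop.PartOne

/-!
A polynomial in the ideal of the symmetric `4 × 4` minors whose tropical hypersurface does not
contain the weight.
-/

set_option autoImplicit false

namespace Q58.Trop

open MvPolynomial

section kill

variable {σ : Type} (w : σ → ℕ)

/-- put the variables of positive weight to `0` -/
noncomputable def kill : MvPolynomial σ ℂ →ₐ[ℂ] MvPolynomial σ ℂ :=
  aeval fun e => if w e = 0 then X e else 0

theorem kill_X_zero {e : σ} (h : w e = 0) : kill w (X e) = X e := by simp [kill, h]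

theorem kill_X_pos {e : σ} (h : w e ≠ 0) : kill w (X e) = 0 := by simp [kill, h]

theorem kill_monomial (v : σ →₀ ℕ) (c : ℂ) :
    (∀ e ∈ v.support, w e = 0) → kill w (monomial v c) = monomial v c := by
  intro h
  rw [kill, aeval_monomial, monomial_eq, algebraMap_eq]
  congr 1
  refine Finsupp.prod_congr fun e he => ?_
  rw [if_pos (h e he)]

theorem kill_monomial' (v : σ →₀ ℕ) (c : ℂ) {e : σ} (he : e ∈ v.support) (hw : w e ≠ 0) :
    kill w (monomial v c) = 0 := by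
  rw [kill, aeval_monomial, Finsupp.prod]
  rw [Finset.prod_eq_zero he, mul_zero]
  rw [if_neg hw]
  exact zero_pow (Finsupp.mem_support_iff.1 he)

theorem coeff_kill (f : MvPolynomial σ ℂ) (u : σ →₀ ℕ) (hu : ∀ e ∈ u.support, w e = 0) :
    coeff u (kill w f) = coeff u f := by
  classical
  induction f using MvPolynomial.induction_on' with
  | monomial v c =>
    by_cases h : ∀ e ∈ v.support, w e = 0
    · rw [kill_monomial w v c h]
    · push Not at h
      obtain ⟨e, he, hw⟩ := h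
      rw [kill_monomial' w v c he hw, coeff_zero, coeff_monomial, if_neg]
      rintro rfl
      exact hw (hu e he)
  | add p q hp hq => rw [map_add, coeff_add, coeff_add, hp, hq]

/-- A polynomial whose part of weight `0` is a nonzero monomial is not tropically singular. -/
theorem not_mem_trop {f : MvPolynomial σ ℂ} {u : σ →₀ ℕ} {c : ℂ} (hc : c ≠ 0)
    (hf : kill w f = monomial u c) (hu : ∀ e ∈ u.support, w e = 0) :
    (fun e => (w e : ℝ)) ∉ trop f := by
  classical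
  have hcu : coeff u f = c := by rw [← coeff_kill w f u hu, hf, coeff_monomial, if_pos rfl]
  have hmem : u ∈ f.support := by rw [mem_support_iff, hcu]; exact hc
  have hwu : wt (fun e => (w e : ℝ)) u = 0 := by
    simp only [wt, Finsupp.sum]
    refine Finset.sum_eq_zero fun e he => ?_
    rw [hu e he]; simp
  have key : ∀ v ∈ f.support, wt (fun e => (w e : ℝ)) v ≤ 0 → v = u := by
    intro v hv hle
    have hz : ∀ e ∈ v.support, w e = 0 := by
      intro e he
      by_contra hne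
      have h1 : 0 < (v e : ℝ) * (w e : ℝ) := by
        have : v e ≠ 0 := Finsupp.mem_support_iff.1 he
        positivity
      have h2 : (v e : ℝ) * (w e : ℝ) ≤ wt (fun e => (w e : ℝ)) v := by
        simp only [wt, Finsupp.sum]
        exact Finset.single_le_sum (f := fun e => (v e : ℝ) * (w e : ℝ))
          (fun i _ => by positivity) he
      linarith
    have h3 : coeff v (kill w f) ≠ 0 := by
      rw [coeff_kill w f v hz]
      exact mem_support_iff.1 hv
    rw [hf, coeff_monomial] at h3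
    by_contra hne
    exact h3 (if_neg fun h => hne h.symm)
  rintro (h | ⟨a, ha, b, hb, hab, heq, hmin⟩)
  · rw [h] at hcu
    exact hc (by simpa using hcu.symm)
  · have h1 : wt (fun e => (w e : ℝ)) a ≤ 0 := hwu ▸ hmin u hmem
    have h2 : wt (fun e => (w e : ℝ)) b ≤ 0 := heq ▸ h1
    exact hab ((key a ha h1).trans (key b hb h2).symm)

end kill

/-- Eight vectors. Modulo `3` the last four are isotropic, and the first four are poles of lines
through two of them. -/
def V8 : Fin 8 → Fin 3 → ℤ :=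
  ![![0, 1, 1], ![1, 0, 1], ![1, 0, 2], ![0, 1, 2], ![1, 1, 1], ![1, -1, 2], ![1, 2, 1],
    ![1, 1, 2]]

/-- The incidence pattern. -/
def B8 : Fin 8 → Fin 8 → ℕ :=
  ![![0, 0, 0, 1, 0, 0, 1, 1], ![0, 0, 1, 0, 0, 1, 0, 1], ![0, 1, 0, 0, 1, 0, 1, 0],
    ![1, 0, 0, 0, 1, 1, 0, 0], ![0, 0, 1, 1, 1, 0, 0, 0], ![0, 1, 0, 1, 0, 1, 0, 0],
    ![1, 0, 1, 0, 0, 0, 1, 0], ![1, 1, 0, 0, 0, 0, 0, 1]]

/-- retraction onto the first eight indices -/
def retr {n : ℕ} (i : Fin n) : Fin 8 := ⟨min i 7, by omega⟩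

/-- the vectors: the last one is repeated -/
def Vn (n : ℕ) : Fin n → Fin 3 → ℤ := fun i => V8 (retr i)

theorem gram_Vn {n : ℕ} (i j : Fin n) : gram (Vn n) s(i, j) = gram V8 s(retr i, retr j) := rfl

theorem gw_Vn {n : ℕ} (i j : Fin n) : gw (Vn n) s(i, j) = B8 (retr i) (retr j) := by
  have h : ∀ a b : Fin 8, (if (3 : ℤ) ∣ gram V8 s(a, b) then 1 else 0) = B8 a b := by decide
  rw [← h]
  rfl

theorem nine_not_dvd {n : ℕ} (e : Sym2 (Fin n)) : ¬ (9 : ℤ) ∣ gram (Vn n) e := by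
  have h : ∀ a b : Fin 8, ¬ (9 : ℤ) ∣ gram V8 s(a, b) := by decide
  induction e using Sym2.ind with
  | _ i j => exact h _ _

theorem detA {R : Type} [CommRing R] (x p q y u v a b c d : R) :
    Matrix.det !![x, 0, p, q; 0, y, 0, 0; 0, u, a, b; 0, v, c, d] = x * y * (a * d - b * c) := by
  simp [Matrix.det_succ_row_zero, Fin.sum_univ_succ, Fin.succAbove]
  ring

theorem detB {R : Type} [CommRing R] (x y p q u v a b c d : R) :
    Matrix.det !![x, 0, 0, 0; 0, y, p, q; u, 0, a, b; v, 0, c, d] = x * y * (a * d - b * c) := by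
  simp [Matrix.det_succ_row_zero, Fin.sum_univ_succ, Fin.succAbove]
  ring

theorem detD {R : Type} [CommRing R] (a b c d r s : R) :
    Matrix.det !![0, a, r, c; a, 0, b, s; r, b, 0, d; c, s, d, 0] =
      (a * d) ^ 2 + (r * s) ^ 2 + (b * c) ^ 2 - 2 * (a * d) * (r * s) - 2 * (a * d) * (b * c)
        - 2 * (r * s) * (b * c) := by
  simp [Matrix.det_succ_row_zero, Fin.sum_univ_succ, Fin.succAbove]
  ring

section main

variable {n : ℕ} (hn : 8 ≤ n)

/-- the inclusion of the first eight indices -/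
def inc : Fin 8 ↪o Fin n := Fin.castLEOrderEmb hn

theorem retr_inc (i : Fin 8) : retr (inc hn i) = i := by
  apply Fin.ext
  simp only [retr, inc, Fin.castLEOrderEmb_apply, Fin.val_castLE]
  omega

/-- variable -/
noncomputable def xx (i j : Fin 8) : MvPolynomial (Sym2 (Fin n)) ℂ := X s(inc hn i, inc hn j)

theorem kill_xx (i j : Fin 8) :
    kill (gw (Vn n)) (xx hn i j) = if B8 i j = 0 then xx hn i j else 0 := by
  have h : gw (Vn n) s(inc hn i, inc hn j) = B8 i j := by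
    rw [gw_Vn, retr_inc, retr_inc]
  by_cases h0 : B8 i j = 0
  · rw [if_pos h0, xx, kill_X_zero _ (h.trans h0)]
  · rw [if_neg h0, xx, kill_X_pos _ (by rw [h]; exact h0)]

theorem xx_comm (i j : Fin 8) : xx hn i j = xx hn j i := by
  simp only [xx, Sym2.eq_swap]

theorem kill_minor (r c : Fin 4 → Fin 8) :
    kill (gw (Vn n)) (minor ℂ n (inc hn ∘ r) (inc hn ∘ c)) =
      (Matrix.of fun i j => if B8 (r i) (c j) = 0 then xx hn (r i) (c j) else 0).det := by
  unfold minor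
  rw [AlgHom.map_det]
  congr 1
  ext i j
  simp only [AlgHom.mapMatrix_apply, Matrix.map_apply, Matrix.submatrix_apply, symMat,
    Function.comp_apply, Matrix.of_apply, ← kill_xx]
  rfl

theorem minor_mem (r c : Fin 4 → Fin 8) (hr : StrictMono r) (hc : StrictMono c) :
    minor ℂ n (inc hn ∘ r) (inc hn ∘ c) ∈ minors n :=
  ⟨(OrderEmbedding.ofStrictMono r hr).trans (inc hn),
    (OrderEmbedding.ofStrictMono c hc).trans (inc hn), rfl⟩

theorem killA : kill (gw (Vn n)) (minor ℂ n (inc hn ∘ ![1, 2, 5, 7]) (inc hn ∘ ![1, 2, 4, 6])) =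
    xx hn 1 1 * xx hn 2 2 * (xx hn 4 5 * xx hn 6 7 - xx hn 5 6 * xx hn 4 7) := by
  rw [kill_minor]
  have : (Matrix.of fun i j : Fin 4 =>
      if B8 ((![1, 2, 5, 7] : Fin 4 → Fin 8) i) ((![1, 2, 4, 6] : Fin 4 → Fin 8) j) = 0 then
        xx hn ((![1, 2, 5, 7] : Fin 4 → Fin 8) i) ((![1, 2, 4, 6] : Fin 4 → Fin 8) j) else 0) =
      !![xx hn 1 1, 0, xx hn 1 4, xx hn 1 6; 0, xx hn 2 2, 0, 0;
        0, xx hn 5 2, xx hn 5 4, xx hn 5 6; 0, xx hn 7 2, xx hn 7 4, xx hn 7 6] := by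
    ext i j
    fin_cases i <;> fin_cases j <;> simp [B8]
  rw [this, detA, xx_comm hn 5 4, xx_comm hn 7 4, xx_comm hn 7 6]

theorem killB : kill (gw (Vn n)) (minor ℂ n (inc hn ∘ ![0, 3, 4, 5]) (inc hn ∘ ![0, 3, 6, 7])) =
    xx hn 0 0 * xx hn 3 3 * (xx hn 4 6 * xx hn 5 7 - xx hn 4 7 * xx hn 5 6) := by
  rw [kill_minor]
  have : (Matrix.of fun i j : Fin 4 =>
      if B8 ((![0, 3, 4, 5] : Fin 4 → Fin 8) i) ((![0, 3, 6, 7] : Fin 4 → Fin 8) j) = 0 then
        xx hn ((![0, 3, 4, 5] : Fin 4 → Fin 8) i) ((![0, 3, 6, 7] : Fin 4 → Fin 8) j) else 0) =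
      !![xx hn 0 0, 0, 0, 0; 0, xx hn 3 3, xx hn 3 6, xx hn 3 7;
        xx hn 4 0, 0, xx hn 4 6, xx hn 4 7; xx hn 5 0, 0, xx hn 5 6, xx hn 5 7] := by
    ext i j
    fin_cases i <;> fin_cases j <;> simp [B8]
  rw [this, detB]

theorem killD : kill (gw (Vn n)) (minor ℂ n (inc hn ∘ ![4, 5, 6, 7]) (inc hn ∘ ![4, 5, 6, 7])) =
    (xx hn 4 5 * xx hn 6 7) ^ 2 + (xx hn 4 6 * xx hn 5 7) ^ 2 + (xx hn 5 6 * xx hn 4 7) ^ 2
      - 2 * (xx hn 4 5 * xx hn 6 7) * (xx hn 4 6 * xx hn 5 7)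
      - 2 * (xx hn 4 5 * xx hn 6 7) * (xx hn 5 6 * xx hn 4 7)
      - 2 * (xx hn 4 6 * xx hn 5 7) * (xx hn 5 6 * xx hn 4 7) := by
  rw [kill_minor]
  have : (Matrix.of fun i j : Fin 4 =>
      if B8 ((![4, 5, 6, 7] : Fin 4 → Fin 8) i) ((![4, 5, 6, 7] : Fin 4 → Fin 8) j) = 0 then
        xx hn ((![4, 5, 6, 7] : Fin 4 → Fin 8) i) ((![4, 5, 6, 7] : Fin 4 → Fin 8) j) else 0) =
      !![0, xx hn 4 5, xx hn 4 6, xx hn 4 7; xx hn 4 5, 0, xx hn 5 6, xx hn 5 7;
        xx hn 4 6, xx hn 5 6, 0, xx hn 6 7; xx hn 4 7, xx hn 5 7, xx hn 6 7, 0] := by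
    ext i j
    fin_cases i <;> fin_cases j <;> simp [B8, xx_comm hn 5 4, xx_comm hn 6 4, xx_comm hn 6 5,
      xx_comm hn 7 4, xx_comm hn 7 5, xx_comm hn 7 6]
  rw [this, detD]

/-- the exponent of the monomial of weight `0` -/
noncomputable def uu : Sym2 (Fin n) →₀ ℕ :=
  Finsupp.single s(inc hn 0, inc hn 0) 1 + Finsupp.single s(inc hn 1, inc hn 1) 1 +
    Finsupp.single s(inc hn 2, inc hn 2) 1 + Finsupp.single s(inc hn 3, inc hn 3) 1 +
    Finsupp.single s(inc hn 5, inc hn 6) 2 + Finsupp.single s(inc hn 4, inc hn 7) 2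

theorem monomial_uu : (monomial (uu hn) (3 : ℂ)) =
    3 * (xx hn 0 0 * xx hn 1 1 * xx hn 2 2 * xx hn 3 3 * (xx hn 5 6 * xx hn 4 7) ^ 2) := by
  have h : (monomial (uu hn) (3 : ℂ)) = C 3 * monomial (uu hn) 1 := by
    rw [C_mul_monomial, mul_one]
  have hm : ∀ a b : Sym2 (Fin n) →₀ ℕ,
      monomial (a + b) (1 : ℂ) = monomial a 1 * monomial b 1 := fun a b => by
    rw [monomial_mul, mul_one]
  have h2 : ∀ e : Sym2 (Fin n), monomial (Finsupp.single e 2) (1 : ℂ) = X e ^ 2 := fun e => by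
    rw [X_pow_eq_monomial]
  have h1 : ∀ e : Sym2 (Fin n), monomial (Finsupp.single e 1) (1 : ℂ) = X e := fun e => rfl
  rw [h, uu]
  simp only [hm, h2, h1, xx]
  rw [show (C (3 : ℂ) : MvPolynomial (Sym2 (Fin n)) ℂ) = 3 from map_ofNat C 3]
  ring

include hn in
theorem part_two : (fun e => (gw (Vn n) e : ℝ)) ∉ tropVar (Ideal.span (minors n)) := by
  intro hmem
  rw [tropVar, Set.mem_iInter₂] at hmem
  set fA := minor ℂ n (inc hn ∘ ![1, 2, 5, 7]) (inc hn ∘ ![1, 2, 4, 6]) with hA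
  set fB := minor ℂ n (inc hn ∘ ![0, 3, 4, 5]) (inc hn ∘ ![0, 3, 6, 7]) with hB
  set fD := minor ℂ n (inc hn ∘ ![4, 5, 6, 7]) (inc hn ∘ ![4, 5, 6, 7]) with hD
  have mA : fA ∈ Ideal.span (minors n) := Ideal.subset_span
    (minor_mem hn _ _ (by decide) (by decide))
  have mB : fB ∈ Ideal.span (minors n) := Ideal.subset_span
    (minor_mem hn _ _ (by decide) (by decide))
  have mD : fD ∈ Ideal.span (minors n) := Ideal.subset_span
    (minor_mem hn _ _ (by decide) (by decide))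
  set P := xx hn 4 5 * xx hn 6 7 with hP
  set Q := xx hn 4 6 * xx hn 5 7 with hQ
  set R := xx hn 5 6 * xx hn 4 7 with hR
  have kx : ∀ i j, B8 i j = 0 → kill (gw (Vn n)) (xx hn i j) = xx hn i j := by
    intro i j h
    rw [kill_xx, if_pos h]
  have kP : kill (gw (Vn n)) P = P := by
    rw [hP, map_mul, kx _ _ (by decide), kx _ _ (by decide)]
  have kQ : kill (gw (Vn n)) Q = Q := by
    rw [hQ, map_mul, kx _ _ (by decide), kx _ _ (by decide)]
  have kR : kill (gw (Vn n)) R = R := by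
    rw [hR, map_mul, kx _ _ (by decide), kx _ _ (by decide)]
  let f : MvPolynomial (Sym2 (Fin n)) ℂ :=
    -(xx hn 0 0 * xx hn 1 1 * xx hn 2 2 * xx hn 3 3) * fD +
      (xx hn 0 0 * xx hn 3 3) * (-2 * R + (P - R) - 2 * (Q - R)) * fA +
      (xx hn 1 1 * xx hn 2 2) * (-2 * R + (Q - R)) * fB
  have hf : f ∈ Ideal.span (minors n) :=
    Ideal.add_mem _ (Ideal.add_mem _ (Ideal.mul_mem_left _ _ mD) (Ideal.mul_mem_left _ _ mA))
      (Ideal.mul_mem_left _ _ mB)
  have hkill : kill (gw (Vn n)) f = monomial (uu hn) 3 := by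
    rw [monomial_uu]
    simp only [f, map_add, map_sub, map_mul, map_neg, map_ofNat, kP, kQ, kR, hA, hB, hD, killA,
      killB, killD, kx 0 0 (by decide), kx 1 1 (by decide), kx 2 2 (by decide),
      kx 3 3 (by decide), ← hP, ← hQ, ← hR]
    rw [mul_comm (xx hn 4 7) (xx hn 5 6), ← hR]
    ring
  refine not_mem_trop (gw (Vn n)) (by norm_num) hkill ?_ (hmem f hf)
  intro e he
  have hsub : (uu hn).support ⊆ {s(inc hn 0, inc hn 0), s(inc hn 1, inc hn 1),
      s(inc hn 2, inc hn 2), s(inc hn 3, inc hn 3), s(inc hn 5, inc hn 6),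
      s(inc hn 4, inc hn 7)} := by
    classical
    intro a ha
    by_contra hcon
    simp only [Finset.mem_insert, Finset.mem_singleton, not_or] at hcon
    apply Finsupp.mem_support_iff.1 ha
    simp only [uu, Finsupp.add_apply, Finsupp.single_apply]
    simp [Ne.symm hcon.1, Ne.symm hcon.2.1, Ne.symm hcon.2.2.1, Ne.symm hcon.2.2.2.1,
      Ne.symm hcon.2.2.2.2.1, Ne.symm hcon.2.2.2.2.2]
  have hg : ∀ i j : Fin 8, gw (Vn n) s(inc hn i, inc hn j) = B8 i j := by
    intro i j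
    rw [gw_Vn, retr_inc, retr_inc]
  have h1 := hsub he
  simp only [Finset.mem_insert, Finset.mem_singleton] at h1
  rcases h1 with rfl | rfl | rfl | rfl | rfl | rfl <;> rw [hg] <;> decide

end main

end Q58.Trop
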